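import Pool.Agent.H883R2.RS.Defs2

/-!
# Stubs (exact statements) for the tasks

Every task: copy the statement into its own file `Pool/Agent/H883R2/RS/<Task>.lean`
(importing `Pool.Agent.H883R2.RS.Defs2`), same namespace, and prove it.
-/

set_option autoImplicit false

namespace Pool.Agent.H883R2.RS

open Finset

variable {n k k' L : ℕ} [NeZero n]

/-! ## Task P (perfect matchings) -/

theorem pmc_eq (Q : Finset (Sym2 (ZMod n))) (hQ : Good Q) :
    (pmc Q : ℝ) * DD n Q.card = ((PM n).card : ℝ) := by sorry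

theorem pmc_zero (Q : Finset (Sym2 (ZMod n))) (hQ : ¬ Good Q) : pmc Q = 0 := by sorry

theorem pmc_le (Q : Finset (Sym2 (ZMod n))) (h : 4 * Q.card + 4 ≤ n) :
    (pmc Q : ℝ) ≤ ((PM n).card : ℝ) * (2 / n) ^ Q.card := by sorry

theorem PM_pos (he : Even n) : 0 < (PM n).card := by sorry

/-! ## Task N (counting samples) -/

theorem num_eq (A : Finset (Edge n)) (hA : A ⊆ cyc n) (Q : Finset (Sym2 (ZMod n))) :
    (num (A ∪ Q.image fun q => (q, true)) : ℝ) * 2 ^ (A.card + Q.card) * ((PM n).card : ℝ)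
      = (pmc Q : ℝ) * ((Smp n).card : ℝ) := by sorry

theorem num_mono {F F' : Finset (Edge n)} (h : F ⊆ F') : num F' ≤ num F := by sorry

theorem Smp_pos (h : 0 < (PM n).card) : 0 < (Smp n).card := by sorry

/-- the part of Bob is distributed like the part of Alice -/
theorem bob_card (P : (ZMod n → ZMod n) → Finset (Edge n) → Prop) :
    (open Classical in ((Smp n).filter fun p => P p.1 (edges p.1 \ p.2)).card)
      = (open Classical in ((Smp n).filter fun p => P p.1 p.2).card) := by sorry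

/-! ## Task W (geometry of spread walks) -/

theorem arcE_sub (w : Wk n k L) : arcE w ⊆ cyc n := by sorry

theorem arcE_card (w : Wk n k L) (hw : Spread w) (hn : 8 * L + 8 ≤ n) :
    (arcE w).card = ∑ i, ln w i := by sorry

theorem ch_card (w : Wk n k L) (hw : Spread w) (hn : 8 * L + 8 ≤ n) :
    (ch w).card = k + 1 := by sorry

theorem ch_good (w : Wk n k L) (hw : Spread w) (hn : 8 * L + 8 ≤ n) : Good (ch w) := by sorry

/-- the ends of the chords are vertices of the arcs -/
theorem mem_vert_of_ch (w : Wk n k L) {q : Sym2 (ZMod n)} (hq : q ∈ ch w) {x : ZMod n}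
    (hx : x ∈ q) : x ∈ vert w := by sorry

theorem arcE_disjoint (w : Wk n k L) (w' : Wk n k' L) (h : Disjoint (vert w) (vert w')) :
    Disjoint (arcE w) (arcE w') := by sorry

theorem ch_disjoint (w : Wk n k L) (w' : Wk n k' L) (h : Disjoint (vert w) (vert w')) :
    Disjoint (ch w) (ch w') := by sorry

theorem ch_union_good (w : Wk n k L) (w' : Wk n k' L) (hw : Spread w) (hw' : Spread w')
    (hn : 8 * L + 8 ≤ n) (h : Disjoint (vert w) (vert w')) : Good (ch w ∪ ch w') := by sorry

/-! ## Task C (walks with the same chords) -/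

theorem same_k (w : Wk n k L) (w' : Wk n k' L) (hw : Spread w) (hw' : Spread w')
    (hn : 8 * L + 8 ≤ n) (h : ch w' ⊆ ch w) : k' = k := by sorry

theorem same_card (w : Wk n k L) (hw : Spread w) (hn : 8 * L + 8 ≤ n) :
    (open Classical in ((SW n k L).filter fun w' => ch w' ⊆ ch w).card) ≤ 2 * (k + 1) := by sorry

/-! ## Task B (walks that touch) -/

theorem touch_sum (w : Wk n k L) (hw : Spread w) (hn : 8 * L + 8 ≤ n) :
    (open Classical in ∑ w' ∈ (SW n k' L).filter fun w' =>
      ¬ Disjoint (vert w) (vert w') ∧ ¬ ch w' ⊆ ch w, (2 / n : ℝ) ^ (ch w' \ ch w).card)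
      ≤ 2 / n * (2 * L * ((k + 1) * (L + 1) ^ 2) + 4 * L : ℝ) ^ (k' + 1) := by sorry

/-! ## Task G (weights of the shapes) -/

theorem gk_lb (h : 4 * (k + 1) ≤ 2 ^ L) (hL : 1 ≤ L) : 1 / 8 ≤ gk k L := by sorry

theorem shape_sum :
    ((n : ℝ) ^ (k + 1) - (k + 1) ^ 2 * (4 * L + 1) * (n : ℝ) ^ k) * gk k L
      ≤ ∑ w ∈ OW n k L, (1 / 2 : ℝ) ^ len w := by sorry

/-! ## Task X (bipartiteness) -/

theorem not_bip (w : Wk n k L) (hw : Odd (len w)) (R : Finset (Edge n)) (h : allE w ⊆ R) :
    ¬ Bip R := by sorry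

theorem bip_odd (he : Even n) (σ : ZMod n → ZMod n) (ho : OddPM σ)
    (R : Finset (Edge n)) (hR : R ⊆ edges σ) : Bip R := by sorry

theorem rule_view (π : Equiv.Perm (ZMod n)) (R : Finset (Edge n)) :
    rule n (view π R) = true ↔ ¬ Bip R := by sorry

/-! ## Task M (main estimate; uses all the above) -/

/-- the main theorem: the part of Alice is not bipartite with probability tending to one -/
theorem main_prob (ε : ℝ) (hε : 0 < ε) : ∃ n0 : ℕ, ∀ n : ℕ, ∀ _ : NeZero n, n0 ≤ n → Even n →
    (1 - ε) * ((Smp n).card : ℝ)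
      ≤ (open Classical in (((Smp n).filter fun p => ¬ Bip p.2).card : ℝ)) := by sorry

end Pool.Agent.H883R2.RS
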